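import Mathlib
import Pool.Agent.Helper307.PP.Total

set_option autoImplicit false

open Filter Topology

namespace Pool.Agent.Results.MP_bec853_al.Negligible

/-- `u` is positive: in its reduced word no generator appears with a negative exponent. -/
def IsPositive {r : ℕ} (u : FreeGroup (Fin r)) : Prop := ∀ a ∈ u.toWord, a.2 = true

/-- `u` is potentially positive: some automorphism makes it positive. -/
def PotentiallyPositive {r : ℕ} (u : FreeGroup (Fin r)) : Prop :=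
  ∃ α : FreeGroup (Fin r) ≃* FreeGroup (Fin r), IsPositive (α u)

/-- the number of potentially positive elements of length `n` in the free group of rank `r` -/
noncomputable def p (r n : ℕ) : ℕ :=
  {u : FreeGroup (Fin r) | u.norm = n ∧ PotentiallyPositive u}.ncard

/-- the exponential growth rate of the potentially positive elements -/
noncomputable def gamma (r : ℕ) : ℝ :=
  limsup (fun n : ℕ => (p r n : ℝ) ^ ((1 : ℝ) / (n : ℝ))) atTop

theorem p_le (r : ℕ) (hr : 3 ≤ r) (n : ℕ) :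
    (p r n : ℝ) ≤ (16 * (r : ℝ) ^ 4 * (2 * (r : ℝ) - 1) ^ (20 * r + 6)) * H307PP.rho' r ^ n := by
  have hcard : Fintype.card (Fin r) = r := Fintype.card_fin r
  have h3 : 3 ≤ Fintype.card (Fin r) := by rw [hcard]; exact hr
  have hnt : Nontrivial (Fin r) := Fin.nontrivial_iff_two_le.2 (by omega)
  have hB := H307PP.card_Big (X := Fin r) h3 n
  rw [hcard] at hB
  refine le_trans ?_ hB
  have hsub : {u : FreeGroup (Fin r) | u.norm = n ∧ PotentiallyPositive u} ⊆
      ((H307PP.Big (X := Fin r) n : Finset (FreeGroup (Fin r))) : Set (FreeGroup (Fin r))) := by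
    rintro u ⟨hn, α, hα⟩
    exact H307PP.bad_subset n u hn ⟨α.toMonoidHom, α.injective, hα⟩
  have h := Set.ncard_le_ncard hsub (Finset.finite_toSet _)
  rw [Set.ncard_coe_finset] at h
  exact_mod_cast h

/-- Potentially positive elements are exponentially negligible in every free group of finite rank
`r ≥ 3`. -/
theorem result : ∀ r : ℕ, 3 ≤ r →
    (∀ n : ℕ, (p r n : ℝ) ≤ (16 * (r : ℝ) ^ 4 * (2 * (r : ℝ) - 1) ^ (20 * r + 6)) *
      (((2 * (r : ℝ) - 1) ^ (20 * r + 6) - 1) ^ (1 / ((20 * r + 6 : ℕ) : ℝ))) ^ n) ∧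
    gamma r ≤ ((2 * (r : ℝ) - 1) ^ (20 * r + 6) - 1) ^ (1 / ((20 * r + 6 : ℕ) : ℝ)) ∧
    ((2 * (r : ℝ) - 1) ^ (20 * r + 6) - 1) ^ (1 / ((20 * r + 6 : ℕ) : ℝ)) < 2 * (r : ℝ) - 1 := by
  intro r hr
  refine ⟨fun n => p_le r hr n, ?_, H307PP.rho_lt r hr⟩
  change gamma r ≤ H307PP.rho' r
  have hr3 : (3 : ℝ) ≤ (r : ℝ) := by exact_mod_cast hr
  set C : ℝ := 16 * (r : ℝ) ^ 4 * (2 * (r : ℝ) - 1) ^ (20 * r + 6) with hC
  have hCpos : 0 < C := by
    have : (0 : ℝ) < 2 * (r : ℝ) - 1 := by linarith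
    positivity
  have hρ0 := H307PP.rho_nonneg r hr
  have hρpos : 0 < H307PP.rho' r := lt_of_lt_of_le (by linarith) (H307PP.rho_ge r hr)
  refine le_of_forall_gt_imp_ge_of_dense ?_
  intro ρ2 hρ2
  -- C^(1/n) tends to 1
  have hlim : Tendsto (fun n : ℕ => C ^ ((1 : ℝ) / (n : ℝ)) * H307PP.rho' r) atTop
      (𝓝 (1 * H307PP.rho' r)) := by
    refine Tendsto.mul_const _ ?_
    have h1 : Tendsto (fun n : ℕ => (1 : ℝ) / (n : ℝ)) atTop (𝓝 0) :=
      tendsto_one_div_atTop_nhds_zero_nat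
    have h2 := (Real.continuousAt_const_rpow (a := C) (b := 0) hCpos.ne').tendsto.comp h1
    simpa [Function.comp_def] using h2
  rw [one_mul] at hlim
  have hev : ∀ᶠ n : ℕ in atTop, (p r n : ℝ) ^ ((1 : ℝ) / (n : ℝ)) ≤ ρ2 := by
    have h1 := hlim.eventually (gt_mem_nhds hρ2)
    filter_upwards [h1, eventually_gt_atTop 0] with n hn hn0
    have hn' : (n : ℝ) ≠ 0 := by positivity
    have h2 : (p r n : ℝ) ^ ((1 : ℝ) / (n : ℝ)) ≤ (C * H307PP.rho' r ^ n) ^ ((1 : ℝ) / (n : ℝ)) :=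
      Real.rpow_le_rpow (Nat.cast_nonneg _) (p_le r hr n) (by positivity)
    have h3 : (C * H307PP.rho' r ^ n) ^ ((1 : ℝ) / (n : ℝ))
        = C ^ ((1 : ℝ) / (n : ℝ)) * H307PP.rho' r := by
      rw [Real.mul_rpow hCpos.le (pow_nonneg hρ0 n), ← Real.rpow_natCast, ← Real.rpow_mul hρ0,
        mul_one_div_cancel hn', Real.rpow_one]
    rw [h3] at h2
    exact h2.trans hn.le
  refine limsup_le_of_le ?_ hev
  refine isCoboundedUnder_le_of_le atTop (x := 0) fun n => ?_
  exact Real.rpow_nonneg (Nat.cast_nonneg _) _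

end Pool.Agent.Results.MP_bec853_al.Negligible
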